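import Pool.Agent.V11304.JS.Det

/-!
# MP_3ec6ae_nt, Q1: the determinants `{42, -7}_n` and `{21, 112}_n` vanish (true)

For every positive integer `n ≡ 1 (mod 4)` with `(n/7) = -1`. One takes a prime `p ∣ n` with `(p/7) = -1`. If
`p² ∣ n` two columns are equal. If `n = p m` with `m > 1` prime to `p`, the vector `(k/p)` supported on the
multiples of `m` is in the kernel, and if `n = p` the vector `1 - (k/p)` is. The main point is that
`∑ (t (t² + c t + d) / p) = 0`, which is proved by hand: the Hasse invariant of the curve is invariant under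
translations and the isogeny of degree two, over the field with `p²` elements.
-/

set_option autoImplicit false

namespace Pool.Agent.Results.MP_3ec6ae_nt.Full

/-- the determinant `{c, d}_n` of the matrix with entries `((j² + c j k + d k²)/n)`, `1 < j, k < n - 1` -/
noncomputable def br (c d : ℤ) (n : ℕ) : ℤ :=
  Matrix.det (Matrix.of fun j k : Finset.Ioo (1 : ℤ) ((n : ℤ) - 1) =>
    jacobiSym ((j : ℤ) ^ 2 + c * (j : ℤ) * (k : ℤ) + d * (k : ℤ) ^ 2) n)

/-- For every positive integer `n ≡ 1 (mod 4)` with `(n/7) = -1` one has `{42, -7}_n = 0` and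
`{21, 112}_n = 0`. -/
theorem result (n : ℕ) (h4 : n % 4 = 1) (h7 : jacobiSym n 7 = -1) :
    br 42 (-7) n = 0 ∧ br 21 112 n = 0 :=
  ⟨Pool.Agent.V11304.JS.br_zero Pool.Agent.V11304.JS.good_one h4 h7,
    Pool.Agent.V11304.JS.br_zero Pool.Agent.V11304.JS.good_two h4 h7⟩

end Pool.Agent.Results.MP_3ec6ae_nt.Full
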